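import Pool.Agent.MP_d9582c_gt.H34.Stmts3
import Pool.Agent.MP_d9582c_gt.H4.Cover
import Pool.Agent.MP_d9582c_gt.H92.Vol

/-!
Existence of the geometric data.
-/

open scoped Manifold ContDiff ENNReal Topology
open MeasureTheory Set Filter

noncomputable section

namespace Pool.Agent.MP_d9582c_gt.H97

open H34

universe u v

lemma le_sum_abs {ι : Type*} {s : Finset ι} (c : ι → ℝ) {a : ι} (ha : a ∈ s) :
    c a ≤ ∑ b ∈ s, |c b| :=
  (le_abs_self _).trans (Finset.single_le_sum (f := fun b => |c b|) (fun _ _ => abs_nonneg _) ha)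

lemma le_sum_abs₂ {ι κ : Type*} {s : Finset ι} {t : Finset κ} (c : ι → κ → ℝ) {a : ι} {b : κ}
    (ha : a ∈ s) (hb : b ∈ t) : c a b ≤ ∑ a ∈ s, ∑ b ∈ t, |c a b| :=
  (le_sum_abs (c a) hb).trans (Finset.single_le_sum (f := fun a => ∑ b ∈ t, |c a b|)
    (fun _ _ => Finset.sum_nonneg fun _ _ => abs_nonneg _) ha)

lemma countable_of_proper (M : Type u) [TopologicalSpace M] [SigmaCompactSpace M] [Nonempty M]
    (G : Type v) [Group G] [MulAction G M] [ProperlyDiscontinuousSMul G M] : Countable G := by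
  obtain ⟨x⟩ := ‹Nonempty M›
  rw [← countable_univ_iff]
  refine (countable_iUnion fun j : ℕ => (finite_disjoint_inter_image (Γ := G)
    (isCompact_singleton (x := x)) (isCompact_compactCovering M j)).countable).mono fun γ _ => ?_
  obtain ⟨j, hj⟩ := exists_mem_compactCovering (γ • x)
  exact mem_iUnion.2 ⟨j, _, ⟨x, rfl, rfl⟩, hj⟩

theorem geo : GeoStmt.{u, v} := by
  intro n M _ _ _ _ _ _ _ _ G _ _ _ g μ hμ hs hiso hfree hK
  classical
  have : LocallyCompactSpace M := ChartedSpace.locallyCompactSpace (E n) M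
  refine ⟨countable_of_proper M G, ?_⟩
  obtain ⟨Y⟩ := H4.cover n M G hs hfree hK
  obtain ⟨hmp, hC⟩ := H92.vol n M g μ hμ
  have hC' := fun a => hC (Y.ctr a) (Y.Cl a) (Y.isCompact_Cl a) (Y.Cl_sub a)
  choose c₁ h₁ using fun a => (hC' a).1
  choose c₂ h₂ using fun a => (hC' a).2.1
  choose c₃ h₃ using fun a b => (hC' b).2.2 (Y.φ a) (Y.smooth a)
  have hfin : (⋃ a, ⋃ b, {γ : G | ((γ • ·) '' Y.Cl b ∩ Y.Cl a).Nonempty}).Finite :=
    finite_iUnion fun a => finite_iUnion fun b =>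
      finite_disjoint_inter_image (Y.isCompact_Cl b) (Y.isCompact_Cl a)
  have hmem : ∀ γ, γ ∈ hfin.toFinset ↔ ∃ a b y, y ∈ Y.Cl b ∧ γ • y ∈ Y.Cl a := fun γ => by
    simp only [Finite.mem_toFinset, mem_iUnion]
    exact ⟨fun ⟨a, b, _, ⟨y, hy, e⟩, h⟩ => ⟨a, b, y, hy, by rwa [← e] at h⟩,
      fun ⟨a, b, y, hy, h⟩ => ⟨a, b, _, ⟨y, hy, rfl⟩, h⟩⟩
  refine ⟨{ Y with
    g := g
    μ := μ
    act_smooth := hs
    iso := hiso
    mp := fun γ => hmp (MulAction.toPerm γ) (hs γ) (hs γ⁻¹) (hiso γ)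
    cμ := ∑ a, |c₁ a|
    vol_cmp := fun a A hA hs f hf => ?_
    μ_fin := fun a => ?_
    cN := ∑ a, ∑ p ∈ Finset.range (n + 1), |c₂ a p|
    nsq_cmp := fun p a x hx α => ?_
    cφ := ∑ a, ∑ b, |c₃ a b|
    cφ_nonneg := Finset.sum_nonneg fun _ _ => Finset.sum_nonneg fun _ _ => abs_nonneg _
    dφ_le := fun a x w => ?_
    S := insert 1 hfin.toFinset
    one_mem := Finset.mem_insert_self _ _
    inv_mem := fun γ hγ => ?_
    adj := fun a b γ x ha hb => ?_
    φ_ev := fun a x hx => ?_ }, rfl, rfl⟩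
  · have hle := ENNReal.ofReal_le_ofReal (le_sum_abs c₁ (Finset.mem_univ a))
    obtain ⟨e1, e2⟩ := h₁ a A hA hs f hf
    exact ⟨e1.trans (by gcongr), e2.trans (by gcongr)⟩
  · have e := (h₁ a (Y.Cl a) (Y.isCompact_Cl a).measurableSet subset_rfl (fun _ => 1)
      aemeasurable_const).1
    rw [setLIntegral_one, setLIntegral_one] at e
    refine ne_top_of_le_ne_top ?_ ((measure_mono (Y.U_sub a)).trans e)
    exact ENNReal.mul_ne_top ENNReal.ofReal_ne_top
      ((Y.isCompact_Cl a).image_of_continuousOn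
        ((chartAt (E n) (Y.ctr a)).continuousOn.mono (Y.Cl_sub a))).measure_lt_top.ne
  · rcases lt_or_ge n p with hp | hp
    · rw [alt_eq_zero hp (α.compContinuousLinearMap _), alt_eq_zero hp α]
      simp
    · have hle := le_sum_abs₂ c₂ (Finset.mem_univ a) (Finset.mem_range.2 (Nat.lt_succ_of_le hp))
      obtain ⟨e1, e2⟩ := h₂ a p x hx α
      exact ⟨e1.trans (mul_le_mul_of_nonneg_right hle (sq_nonneg _)),
        e2.trans (mul_le_mul_of_nonneg_right hle (nsq_nonneg _ _ _))⟩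
  · obtain ⟨b, hb⟩ : ∃ b, Y.φ b x ≠ 0 := by
      by_contra h
      push Not at h
      have := Y.sum_sq x
      simp [h] at this
    obtain ⟨γ, hγ⟩ := Y.supp b x hb
    have e : dfun n (Y.φ a) x =
        (dfun n (Y.φ a) (γ • x)).comp (tang n (fun x : M => γ • x) x) := by
      rw [← dfun_comp (f := fun x : M => γ • x) ((Y.smooth a _).mdifferentiableAt (by simp))
        ((hs γ x).mdifferentiableAt (by simp))]
      congr 1
      exact funext fun y => (Y.inv a γ y).symm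
    have := h₃ a b _ (Y.U_sub b (Y.C_sub b hγ)) (tang n (fun x : M => γ • x) x w)
    rw [hiso] at this
    rw [e]
    exact this.trans (mul_le_mul_of_nonneg_right
      (le_sum_abs₂ c₃ (Finset.mem_univ a) (Finset.mem_univ b)) (gx_nonneg _ _ _))
  · rcases Finset.mem_insert.1 hγ with rfl | h
    · simp
    · obtain ⟨a, b, y, hy, h⟩ := (hmem γ).1 h
      exact Finset.mem_insert_of_mem ((hmem _).2 ⟨b, a, _, h, by simpa using hy⟩)
  · exact Finset.mem_insert_of_mem ((hmem _).2 ⟨a, b, _, Y.U_sub b hb, by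
      simpa using Y.U_sub a ha⟩)
  · obtain ⟨L, hL, hxL⟩ := exists_compact_mem_nhds x
    have hf := finite_disjoint_inter_image (Γ := G) hL (Y.isCompact_C a)
    have h1 : ∀ᶠ y in 𝓝 x, ∀ γ ∈ {γ : G | ((γ • ·) '' L ∩ Y.C a).Nonempty}, γ • y ∉ Y.C a :=
      (eventually_all_finite hf).2 fun γ _ =>
        (hs γ).continuous.continuousAt.preimage_mem_nhds
          ((Y.isCompact_C a).isClosed.isOpen_compl.mem_nhds fun h =>
            hx γ⁻¹ (by simpa using Y.C_sub a h))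
    filter_upwards [h1, hxL] with y hy hyL
    by_contra h
    obtain ⟨γ, hγ⟩ := Y.supp a y h
    exact hy γ ⟨_, ⟨y, hyL, rfl⟩, hγ⟩ hγ

end Pool.Agent.MP_d9582c_gt.H97
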